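import Pool.Agent.Y934.PR.Fin

/-!
# Smooth deformations of the products of round spheres to positive curvature (MP_4e0d62_gt, partial)

Let `S² × S²` or `S² × S³` carry the product of two round metrics of arbitrary radii `r`, `s`, the
standard metrics of nonnegative curvature of these manifolds. They are rigid to second order: by the
theorem `SymmetricSpaces` of this repository metrics at distance `t` have planes of curvature
`o(t²)`. We prove that nevertheless the metric has a deformation `G t`, `0 ≤ t ≤ 1`, smooth in all
variables, such that `G 0` is the product metric and `G t` has positive sectional curvature for all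
`t > 0`. The same holds for the metrics with cometric `|L|²/r² + |K|²/s² + w |L + K|²`, `w > 0`, where
`L` and `K` are the momenta of the two factors (Cheeger deformations of the product metrics by the
diagonal action). On `S² × S³` all the metrics `G t` are invariant under the free right action of the
unit quaternions.

The metric `G t` is a constant times the metric with the cometric
`a |L|² + |K|² + w' |L + K|² + 2 μ (L + K)₀ (L + K)₂ + κ (3 L₀² - L₂²) + 2 ε (L₀ + L₁) (K · x)` with
`w' = w₀ + t`, `μ = m(t)`, `ε = m(t) n(t)`, `κ = a n(t)² / 128`. The proof extends the
expansion of the curvature polynomial at the zero planes, which is due to the team of the problem on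
`S² × S²` (see `ProductsInP`) for `a = w' = 1`, to all `a > 0`, `w' > 0`, uniformly on compact sets,
and then selects the functions `m` and `n`, smooth and vanishing to infinite order at `t = 0`.
-/

open Y934.PR in
/-- For all `r, s > 0` and `w ≥ 0` there are families `G t`, `0 ≤ t ≤ 1`, of Riemannian metrics on
`S² × S²` and on `S² × S³` (with `S²` the unit sphere of `ℝ³`, `S³` the unit quaternions) which are
smooth in all variables, such that `G 0` has the cometric `|L|² / r² + |K|² / s² + w |L + K|²`
(for `S² × S³`: `|L|² / r² + 4 |K|² / s² + w |L + K|²`), and for `w = 0` is `r²` times the round metric
plus `s²` times the round metric, and `G t` has positive sectional curvature for all `0 < t ≤ 1`. On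
`S² × S³` the action `h • (x, q) = (x, q h⁻¹)` of the group of unit quaternions is isometric for all
`G t`. -/
theorem Pool.Agent.Results.MP_4e0d62_gt.RoundProductDeformations.result :
    ∀ r s w : ℝ, 0 < r → 0 < s → 0 ≤ w → Deformation22 r s w ∧ Deformation23 r s w :=
  fun _ _ _ hr hs hw => ⟨main22 hr hs hw, main23 hr hs hw⟩
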